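import Pool.Agent.Lib.MP_a7db77_an.Main

open scoped ZeroAtInfty

namespace Pool.Agent.Results.MP_a7db77_an.NoC0Copy

open Pool.Agent.Lib.MP_a7db77_an

/-- There is a separable infinite-dimensional complex Banach space all of whose polynomial
numerical indices equal one and which contains no copy of `c₀`. -/
theorem result : ∃ (E : Type) (_ : NormedAddCommGroup E) (_ : NormedSpace ℂ E),
    CompleteSpace E ∧ TopologicalSpace.SeparableSpace E ∧ ¬ FiniteDimensional ℂ E ∧
    (∀ k : ℕ, 1 ≤ k → polyNumIndex k E = 1) ∧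
    ¬ ∃ Y : Submodule ℂ E, IsClosed (Y : Set E) ∧ Nonempty (Y ≃L[ℂ] C₀(ℕ, ℂ)) :=
  ⟨X, inferInstance, inferInstance, inferInstance, separable_X, not_finiteDimensional_X,
    fun k _ => polyNumIndex_X k, no_c0_copy⟩

end Pool.Agent.Results.MP_a7db77_an.NoC0Copy
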